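import Pool.Agent.Q60.D3G.StmC

/-!
# Project D3G (helper60), job G4 STRUCT: the structure of an orbit with more than two elements
-/

set_option linter.unusedVariables false
set_option linter.unusedSectionVars false

namespace Pool.Agent.Q14.D3G

open Module Pool.Agent.W547.LD Pool.Agent.W547.LD.Comb Pool.Agent.Q60.D3G

variable {G : Type} [Group G] [Fintype G]

theorem eps_inj {S T : Set G} (h : eps S = eps T) : S = T := by
  ext σ
  rw [← eps_eq_iff, h]

theorem eps_odd {c : G} {S : Set G} (hS : Half c S) (σ : G) : eps S (c * σ) = -eps S σ := by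
  have h1 := hS σ
  unfold eps
  by_cases h : σ ∈ S
  · rw [if_pos h, if_neg (h1.1 h)]
  · have h2 : c * σ ∈ S := by
      by_contra h3
      exact h (h1.2 h3)
    rw [if_neg h, if_pos h2, neg_neg]

/-- No character is in the orbit. -/
theorem nochar {c : G} (hc : ∀ g, c * g = g * c) {Q : Set (Set G)} (hQ : IsOrbit c Q)
    (h2 : 2 < Q.ncard) {N : Subgroup G} (hN : Imag c N) : ({σ | σ ∈ N} : Set G) ∉ Q := by
  intro h
  have h1 : Q ⊆ {{σ | σ ∈ N}, {σ | σ ∈ N}ᶜ} := by
    intro T hT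
    obtain ⟨g, hg⟩ := hQ.trans _ h T hT
    by_cases hgN : g ∈ N
    · rw [Imag.tr_mem (c := c) hgN] at hg
      exact Or.inl hg.symm
    · rw [hN.tr_not_mem hc hgN] at hg
      exact Or.inr hg.symm
  have h3 := Set.ncard_le_ncard h1 (Set.toFinite _)
  have h4 := Set.ncard_insert_le ({σ | σ ∈ N} : Set G) {({σ | σ ∈ N}ᶜ : Set G)}
  rw [Set.ncard_singleton] at h4
  omega

theorem chi_inv (N : Subgroup G) (σ : G) : chi N σ⁻¹ = chi N σ := by
  by_cases h : σ ∈ N
  · rw [show chi N σ = 1 from if_pos h, show chi N σ⁻¹ = 1 from if_pos (N.inv_mem h)]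
  · rw [show chi N σ = -1 from if_neg h,
      show chi N σ⁻¹ = -1 from if_neg (fun h' => h (by simpa using N.inv_mem h'))]

/-- A stable space contains the characters which are not orthogonal to it. -/
theorem chi_mem {c : G} (hc : ∀ g, c * g = g * c) {N : Subgroup G} (hN : Imag c N)
    {V : Submodule ℚ (G → ℚ)} (hV : ∀ g, ∀ F ∈ V, rtr g F ∈ V) {F : G → ℚ} (hF : F ∈ V)
    (h : dot F (chi N) ≠ 0) : chi N ∈ V := by
  have h1 : ∑ g : G, chi N g • rtr g F = dot F (chi N) • chi N := by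
    funext σ
    rw [Finset.sum_apply]
    have e1 : ∀ g, (chi N g • rtr g F) σ = chi N g * F (σ * g) := fun g => rfl
    rw [Finset.sum_congr rfl (fun g _ => e1 g)]
    have e2 : ∑ g, chi N g * F (σ * g) = ∑ g, chi N (σ⁻¹ * g) * F g :=
      Fintype.sum_equiv (Equiv.mulLeft σ) _ _ fun g => by
        rw [Equiv.coe_mulLeft, inv_mul_cancel_left]
    rw [e2, Pi.smul_apply, smul_eq_mul]
    unfold dot
    rw [Finset.sum_mul]
    refine Finset.sum_congr rfl fun g _ => ?_
    have h3 := congrFun (rtr_chi hc hN g) σ⁻¹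
    rw [rtr_apply, Pi.smul_apply, smul_eq_mul, chi_inv] at h3
    rw [h3]
    ring
  have h2 : dot F (chi N) • chi N ∈ V := by
    rw [← h1]
    exact Submodule.sum_mem _ fun g _ => Submodule.smul_mem _ _ (hV g F hF)
  have h3 := Submodule.smul_mem V (dot F (chi N))⁻¹ h2
  rwa [smul_smul, inv_mul_cancel₀ h, one_smul] at h3

/-- Partial families of representatives. -/
structure Par (Q : Set (Set G)) (d : ℕ) (S : Fin d → Set G) : Prop where
  mem : ∀ i, S i ∈ Q
  inj : Function.Injective S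
  nc : ∀ i k, S i ≠ (S k)ᶜ

/-- Representatives. -/
structure Rep (Q : Set (Set G)) (d : ℕ) (S : Fin d → Set G) : Prop extends Par Q d S where
  cov : ∀ T ∈ Q, ∃ i, T = S i ∨ T = (S i)ᶜ

theorem Par.ext {Q : Set (Set G)} {d : ℕ} {S : Fin d → Set G} (hS : Par Q d S) {T : Set G}
    (hT : T ∈ Q) (h : ¬ ∃ i, T = S i ∨ T = (S i)ᶜ) : Par Q (d + 1) (Fin.cons T S) := by
  push Not at h
  refine ⟨?_, ?_, ?_⟩
  · intro i
    refine Fin.cases ?_ (fun i => ?_) i
    · exact hT
    · rw [Fin.cons_succ]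
      exact hS.mem i
  · rw [Fin.cons_injective_iff]
    refine ⟨?_, hS.inj⟩
    rintro ⟨i, hi⟩
    exact (h i).1 hi.symm
  · intro i k
    refine Fin.cases ?_ (fun i => ?_) i
    · refine Fin.cases ?_ (fun k => ?_) k
      · exact ne_compl T
      · rw [Fin.cons_zero, Fin.cons_succ]
        exact (h k).2
    · refine Fin.cases ?_ (fun k => ?_) k
      · rw [Fin.cons_zero, Fin.cons_succ]
        intro h'
        exact (h i).2 (by rw [h', compl_compl])
      · rw [Fin.cons_succ, Fin.cons_succ]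
        exact hS.nc i k

theorem Par.card {c : G} {Q : Set (Set G)} (hQ : IsOrbit c Q) {d : ℕ} {S : Fin d → Set G}
    (hS : Par Q d S) : 2 * d ≤ 6 := by
  have h := two_mul_card_le' hQ.compl S hS.inj hS.nc hS.mem
  rw [Fintype.card_fin] at h
  exact h.trans hQ.card

theorem cov_card {Q : Set (Set G)} {d : ℕ} {S : Fin d → Set G}
    (h : ∀ T ∈ Q, ∃ i, T = S i ∨ T = (S i)ᶜ) : Q.ncard ≤ 2 * d := by
  have h1 : Q ⊆ Set.range (fun x : Fin d × Bool => if x.2 then S x.1 else (S x.1)ᶜ) := by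
    intro T hT
    obtain ⟨i, hi | hi⟩ := h T hT
    · exact ⟨(i, true), hi.symm⟩
    · exact ⟨(i, false), hi.symm⟩
  refine (Set.ncard_le_ncard h1 (Set.toFinite _)).trans ?_
  rw [← Set.image_univ]
  refine (Set.ncard_image_le (Set.toFinite _)).trans ?_
  rw [Set.ncard_univ, Nat.card_prod, Nat.card_eq_fintype_card, Nat.card_eq_fintype_card,
    Fintype.card_fin, Fintype.card_bool, mul_comm]

theorem reps {c : G} {Q : Set (Set G)} (hQ : IsOrbit c Q) (h2 : 2 < Q.ncard) :
    (∃ S : Fin 2 → Set G, Rep Q 2 S) ∨ ∃ S : Fin 3 → Set G, Rep Q 3 S := by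
  have h0 : Par Q 0 (fun i : Fin 0 => (∅ : Set G)) :=
    ⟨fun i => i.elim0, fun i => i.elim0, fun i => i.elim0⟩
  have step : ∀ (d : ℕ) (S : Fin d → Set G), Par Q d S → 2 * d < Q.ncard →
      ∃ S' : Fin (d + 1) → Set G, Par Q (d + 1) S' := by
    intro d S hS hd
    by_cases h : ∀ T ∈ Q, ∃ i, T = S i ∨ T = (S i)ᶜ
    · have := cov_card h
      omega
    · push Not at h
      obtain ⟨T, hT, h⟩ := h
      exact ⟨_, hS.ext hT (by push Not; exact h)⟩
  obtain ⟨S1, hS1⟩ := step 0 _ h0 (by omega)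
  obtain ⟨S2, hS2⟩ := step 1 _ hS1 (by omega)
  by_cases h : ∀ T ∈ Q, ∃ i, T = S2 i ∨ T = (S2 i)ᶜ
  · exact Or.inl ⟨S2, hS2, h⟩
  · push Not at h
    obtain ⟨T, hT, h⟩ := h
    have hS3 := hS2.ext hT (by push Not; exact h)
    right
    refine ⟨_, hS3, ?_⟩
    by_contra h'
    push Not at h'
    obtain ⟨T', hT', h'⟩ := h'
    have := (hS3.ext hT' (by push Not; exact h')).card hQ
    omega

/-- Change of signs. -/
theorem Rep.sgn {c : G} {Q : Set (Set G)} (hQ : IsOrbit c Q) {d : ℕ} {S : Fin d → Set G}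
    (hS : Rep Q d S) (p : Fin d → ℚ) (hp : ∀ i, p i = 1 ∨ p i = -1) :
    ∃ S' : Fin d → Set G, Rep Q d S' ∧ ∀ i, eps (S' i) = p i • eps (S i) := by
  classical
  have h11 : ¬ (-1 : ℚ) = 1 := by norm_num
  refine ⟨fun i => if p i = 1 then S i else (S i)ᶜ, ⟨⟨?_, ?_, ?_⟩, ?_⟩, ?_⟩
  · intro i
    show (if p i = 1 then S i else (S i)ᶜ) ∈ Q
    split_ifs
    · exact hS.mem i
    · exact hQ.compl _ (hS.mem i)
  · intro i k h
    have h' : (if p i = 1 then S i else (S i)ᶜ) = if p k = 1 then S k else (S k)ᶜ := h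
    split_ifs at h' with h1 h3 h3
    · exact hS.inj h'
    · exact absurd h' (hS.nc i k)
    · exact absurd h'.symm (hS.nc k i)
    · exact hS.inj (compl_injective h')
  · intro i k h
    have h' : (if p i = 1 then S i else (S i)ᶜ) = (if p k = 1 then S k else (S k)ᶜ)ᶜ := h
    split_ifs at h' with h1 h3 h3
    · exact hS.nc i k h'
    · rw [compl_compl] at h'
      have e := hS.inj h'
      rw [e] at h1
      exact h3 h1
    · have h4 : S i = S k := compl_injective h'
      have e := hS.inj h4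
      rw [e] at h1
      exact h1 h3
    · rw [compl_compl] at h'
      exact hS.nc k i h'.symm
  · intro T hT
    obtain ⟨i, hi⟩ := hS.cov T hT
    refine ⟨i, ?_⟩
    show T = (if p i = 1 then S i else (S i)ᶜ) ∨ T = (if p i = 1 then S i else (S i)ᶜ)ᶜ
    split_ifs
    · exact hi
    · rw [compl_compl]
      exact hi.symm
  · intro i
    show eps (if p i = 1 then S i else (S i)ᶜ) = p i • eps (S i)
    rcases hp i with h | h
    · rw [h, if_pos rfl, one_smul]
    · rw [h, if_neg h11, eps_compl', neg_one_smul]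

theorem Rep.VV_eq {Q : Set (Set G)} {d : ℕ} {S : Fin d → Set G} (hS : Rep Q d S) :
    VV Q = Submodule.span ℚ (Set.range fun i => eps (S i)) := by
  apply le_antisymm
  · refine Submodule.span_le.2 ?_
    rintro _ ⟨T, hT, rfl⟩
    obtain ⟨i, h | h⟩ := hS.cov T hT
    · rw [h]
      exact Submodule.subset_span ⟨i, rfl⟩
    · rw [h, eps_compl']
      exact Submodule.neg_mem _ (Submodule.subset_span ⟨i, rfl⟩)
  · refine Submodule.span_le.2 ?_
    rintro _ ⟨i, rfl⟩
    exact eps_mem_VV (hS.mem i)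

/-- Combinations with the values `1` and `-1`, two functions. -/
theorem full2 {t : Fin 2 → G → ℚ} (ht : FullT 2 t) {χ : G → ℚ} (hχ : ∀ σ, χ σ = 1 ∨ χ σ = -1)
    {a : Fin 2 → ℚ} (h : ∑ i, a i • t i = χ) : ∃ i, χ = t i ∨ χ = -t i := by
  have hv : ∀ σ, χ σ = a 0 * t 0 σ + a 1 * t 1 σ := by
    intro σ
    rw [← h, Fin.sum_univ_two]
    rfl
  have key : ∀ x y : ℚ, (x = 1 ∨ x = -1) → (y = 1 ∨ y = -1) →
      (a 0 * x + a 1 * y = 1 ∨ a 0 * x + a 1 * y = -1) := by
    intro x y hx hy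
    obtain ⟨σ, hσ⟩ := ht.all ![x, y] (by
      intro i
      refine Fin.cases hx (fun i => ?_) i
      refine Fin.cases hy (fun i => i.elim0) i)
    have h0 : t 0 σ = x := hσ 0
    have h1 : t 1 σ = y := hσ 1
    have h2 := hχ σ
    rw [hv σ, h0, h1] at h2
    exact h2
  have k1 := key 1 1 (Or.inl rfl) (Or.inl rfl)
  have k2 := key 1 (-1) (Or.inl rfl) (Or.inr rfl)
  rcases k1 with k1 | k1 <;> rcases k2 with k2 | k2
  · refine ⟨0, Or.inl (funext fun σ => ?_)⟩
    rw [hv, show a 0 = 1 by linarith, show a 1 = 0 by linarith]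
    ring
  · refine ⟨1, Or.inl (funext fun σ => ?_)⟩
    rw [hv, show a 0 = 0 by linarith, show a 1 = 1 by linarith]
    ring
  · refine ⟨1, Or.inr (funext fun σ => ?_)⟩
    rw [hv, show a 0 = 0 by linarith, show a 1 = -1 by linarith, Pi.neg_apply]
    ring
  · refine ⟨0, Or.inr (funext fun σ => ?_)⟩
    rw [hv, show a 0 = -1 by linarith, show a 1 = 0 by linarith, Pi.neg_apply]
    ring

/-- Combinations with the values `1` and `-1`, three functions. -/
theorem full3 {t : Fin 3 → G → ℚ} (ht : FullT 3 t) {χ : G → ℚ} (hχ : ∀ σ, χ σ = 1 ∨ χ σ = -1)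
    {a : Fin 3 → ℚ} (h : ∑ i, a i • t i = χ) : ∃ i, χ = t i ∨ χ = -t i := by
  have hv : ∀ σ, χ σ = a 0 * t 0 σ + a 1 * t 1 σ + a 2 * t 2 σ := by
    intro σ
    rw [← h, Fin.sum_univ_three]
    rfl
  have key : ∀ x y z : ℚ, (x = 1 ∨ x = -1) → (y = 1 ∨ y = -1) → (z = 1 ∨ z = -1) →
      (a 0 * x + a 1 * y + a 2 * z = 1 ∨ a 0 * x + a 1 * y + a 2 * z = -1) := by
    intro x y z hx hy hz
    obtain ⟨σ, hσ⟩ := ht.all ![x, y, z] (by
      intro i
      refine Fin.cases hx (fun i => ?_) i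
      refine Fin.cases hy (fun i => ?_) i
      refine Fin.cases hz (fun i => i.elim0) i)
    have h0 : t 0 σ = x := hσ 0
    have h1 : t 1 σ = y := hσ 1
    have h2 : t 2 σ = z := hσ 2
    have h3 := hχ σ
    rw [hv σ, h0, h1, h2] at h3
    exact h3
  have k1 := key 1 1 1 (Or.inl rfl) (Or.inl rfl) (Or.inl rfl)
  have k2 := key 1 1 (-1) (Or.inl rfl) (Or.inl rfl) (Or.inr rfl)
  have k3 := key 1 (-1) 1 (Or.inl rfl) (Or.inr rfl) (Or.inl rfl)
  have k4 := key (-1) 1 1 (Or.inr rfl) (Or.inl rfl) (Or.inl rfl)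
  have fin : ∀ x y z : ℚ, a 0 = x → a 1 = y → a 2 = z → ∀ σ, χ σ = x * t 0 σ + y * t 1 σ + z * t 2 σ := by
    intro x y z hx hy hz σ
    rw [hv, hx, hy, hz]
  rcases k1 with k1 | k1 <;> rcases k2 with k2 | k2 <;> rcases k3 with k3 | k3 <;>
    rcases k4 with k4 | k4
  · exfalso; linarith
  · refine ⟨0, Or.inl (funext fun σ => ?_)⟩
    rw [fin 1 0 0 (by linarith) (by linarith) (by linarith)]
    ring
  · refine ⟨1, Or.inl (funext fun σ => ?_)⟩
    rw [fin 0 1 0 (by linarith) (by linarith) (by linarith)]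
    ring
  · exfalso; linarith
  · refine ⟨2, Or.inl (funext fun σ => ?_)⟩
    rw [fin 0 0 1 (by linarith) (by linarith) (by linarith)]
    ring
  · exfalso; linarith
  · exfalso; linarith
  · exfalso; linarith
  · exfalso; linarith
  · exfalso; linarith
  · exfalso; linarith
  · refine ⟨2, Or.inr (funext fun σ => ?_)⟩
    rw [fin 0 0 (-1) (by linarith) (by linarith) (by linarith), Pi.neg_apply]
    ring
  · exfalso; linarith
  · refine ⟨1, Or.inr (funext fun σ => ?_)⟩
    rw [fin 0 (-1) 0 (by linarith) (by linarith) (by linarith), Pi.neg_apply]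
    ring
  · refine ⟨0, Or.inr (funext fun σ => ?_)⟩
    rw [fin (-1) 0 0 (by linarith) (by linarith) (by linarith), Pi.neg_apply]
    ring
  · exfalso; linarith

/-- If no character is a combination, the whole space is orthogonal to the characters. -/
theorem inf_perp {c : G} (hc : ∀ g, c * g = g * c) {V : Submodule ℚ (G → ℚ)}
    (hV : ∀ g, ∀ F ∈ V, rtr g F ∈ V) (h : ∀ N : Subgroup G, Imag c N → chi N ∉ V) :
    V ⊓ Perp c = V := by
  apply le_antisymm inf_le_left
  intro F hF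
  refine ⟨hF, fun N hN => ?_⟩
  by_contra h'
  exact h N hN (chi_mem hc hN hV hF h')

theorem not_pm {c : G} (hc : ∀ g, c * g = g * c) {Q : Set (Set G)} (hQ : IsOrbit c Q)
    (h2 : 2 < Q.ncard) {N : Subgroup G} (hN : Imag c N) {S : Set G} (hS : S ∈ Q) :
    chi N ≠ eps S ∧ chi N ≠ -eps S := by
  constructor
  · intro h
    have h1 : {σ | σ ∈ N} = S := eps_inj h
    exact nochar hc hQ h2 hN (by rw [h1]; exact hS)
  · intro h
    rw [← eps_compl'] at h
    have h1 : {σ | σ ∈ N} = Sᶜ := eps_inj h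
    exact nochar hc hQ h2 hN (by rw [h1]; exact hQ.compl _ hS)

/-- the pointwise computation in the third case -/
theorem tri_pt {x y z : ℚ} (hx : x = 1 ∨ x = -1) (hy : y = 1 ∨ y = -1) (hz : z = 1 ∨ z = -1)
    (h1 : ¬ (x = 1 ∧ y = 1 ∧ z = 1)) (h2 : ¬ (x = -1 ∧ y = -1 ∧ z = -1)) :
    (x + y + z = 1 ∨ x + y + z = -1) ∧ ∃ D : Fin 3,
      x = (if D = 0 then -(x + y + z) else x + y + z) ∧
      y = (if D = 1 then -(x + y + z) else x + y + z) ∧
      z = (if D = 2 then -(x + y + z) else x + y + z) := by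
  have d01 : ¬ (0 : Fin 3) = 1 := by decide
  have d02 : ¬ (0 : Fin 3) = 2 := by decide
  have d10 : ¬ (1 : Fin 3) = 0 := by decide
  have d12 : ¬ (1 : Fin 3) = 2 := by decide
  have d20 : ¬ (2 : Fin 3) = 0 := by decide
  have d21 : ¬ (2 : Fin 3) = 1 := by decide
  rcases hx with rfl | rfl <;> rcases hy with rfl | rfl <;> rcases hz with rfl | rfl
  · exact absurd ⟨rfl, rfl, rfl⟩ h1
  · refine ⟨by norm_num, 2, ?_, ?_, ?_⟩
    · rw [if_neg d20]; norm_num
    · rw [if_neg d21]; norm_num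
    · rw [if_pos rfl]; norm_num
  · refine ⟨by norm_num, 1, ?_, ?_, ?_⟩
    · rw [if_neg d10]; norm_num
    · rw [if_pos rfl]; norm_num
    · rw [if_neg d12]; norm_num
  · refine ⟨by norm_num, 0, ?_, ?_, ?_⟩
    · rw [if_pos rfl]; norm_num
    · rw [if_neg d01]; norm_num
    · rw [if_neg d02]; norm_num
  · refine ⟨by norm_num, 0, ?_, ?_, ?_⟩
    · rw [if_pos rfl]; norm_num
    · rw [if_neg d01]; norm_num
    · rw [if_neg d02]; norm_num
  · refine ⟨by norm_num, 1, ?_, ?_, ?_⟩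
    · rw [if_neg d10]; norm_num
    · rw [if_pos rfl]; norm_num
    · rw [if_neg d12]; norm_num
  · refine ⟨by norm_num, 2, ?_, ?_, ?_⟩
    · rw [if_neg d20]; norm_num
    · rw [if_neg d21]; norm_num
    · rw [if_pos rfl]; norm_num
  · exact absurd ⟨rfl, rfl, rfl⟩ h2

/-- The third case: representatives which are never all equal. -/
theorem tri {c : G} (hc : ∀ g, c * g = g * c) {Q : Set (Set G)} (hQ : IsOrbit c Q)
    {S : Fin 3 → Set G} (hS : Rep Q 3 S)
    (hne : ∀ σ, ¬ (eps (S 0) σ = 1 ∧ eps (S 1) σ = 1 ∧ eps (S 2) σ = 1)) :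
    ∃ (χ : G → ℚ) (D : G → Fin 3), TriT χ D (fun i => eps (S i)) ∧
      ∀ σ, χ σ = eps (S 0) σ + eps (S 1) σ + eps (S 2) σ := by
  have hodd : ∀ i σ, eps (S i) (c * σ) = -eps (S i) σ := fun i σ =>
    eps_odd (hQ.half _ (hS.mem i)) σ
  have hpt := fun σ => tri_pt (eps_cases (S 0) σ) (eps_cases (S 1) σ) (eps_cases (S 2) σ) (hne σ)
    (by
      rintro ⟨h0, h1, h2⟩
      apply hne (c * σ)
      rw [hodd, hodd, hodd, h0, h1, h2]
      norm_num)
  choose hval D hD0 hD1 hD2 using hpt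
  set χ : G → ℚ := fun σ => eps (S 0) σ + eps (S 1) σ + eps (S 2) σ with hχ
  have heq : ∀ i σ, eps (S i) σ = if D σ = i then -χ σ else χ σ := by
    intro i σ
    refine Fin.cases (hD0 σ) (fun i => ?_) i
    refine Fin.cases (hD1 σ) (fun i => ?_) i
    refine Fin.cases (hD2 σ) (fun i => i.elim0) i
  refine ⟨χ, D, ⟨hval, ?_, heq⟩, fun σ => rfl⟩
  -- surjectivity
  have hno : ∀ i k, i ≠ k → ¬ ∀ σ, eps (S i) σ = -eps (S k) σ := by
    intro i k hik h
    apply hS.nc i k
    apply eps_inj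
    funext σ
    rw [eps_compl]
    exact h σ
  intro i
  by_contra hcon
  push Not at hcon
  have h1 : ∀ σ, eps (S i) σ = χ σ := fun σ => by rw [heq i σ, if_neg (hcon σ)]
  have h01 : (0 : Fin 3) ≠ 1 := by decide
  have h02 : (0 : Fin 3) ≠ 2 := by decide
  have h12 : (1 : Fin 3) ≠ 2 := by decide
  revert h1
  clear hcon
  refine Fin.cases ?_ (fun i => ?_) i
  · intro h1
    refine hno 1 2 h12 fun σ => ?_
    have h2 := h1 σ
    have h3 : χ σ = eps (S 0) σ + eps (S 1) σ + eps (S 2) σ := rfl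
    linarith
  · refine Fin.cases ?_ (fun i => ?_) i
    · intro h1
      refine hno 0 2 h02 fun σ => ?_
      have h2 : eps (S 1) σ = χ σ := h1 σ
      have h3 : χ σ = eps (S 0) σ + eps (S 1) σ + eps (S 2) σ := rfl
      linarith
    · refine Fin.cases ?_ (fun i => i.elim0) i
      intro h1
      refine hno 0 1 h01 fun σ => ?_
      have h2 : eps (S 2) σ = χ σ := h1 σ
      have h3 : χ σ = eps (S 0) σ + eps (S 1) σ + eps (S 2) σ := rfl
      linarith

/-- Right translations of the representatives. -/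
theorem Rep.rtr {c : G} {Q : Set (Set G)} (hQ : IsOrbit c Q) {d : ℕ}
    {S : Fin d → Set G} (hS : Rep Q d S) (g : G) : ∃ r : Fin d → ℚ, (∀ i, r i = 1 ∨ r i = -1) ∧
      ∑ i, Comb.rtr g (eps (S i)) = ∑ i, r i • eps (S i) := by
  have h1 : ∀ i, ∃ k, tr g (S i) = S k ∨ tr g (S i) = (S k)ᶜ := fun i =>
    hS.cov _ (hQ.stable g _ (hS.mem i))
  choose f hf using h1
  have h2 : ∀ i, ∃ s : ℚ, (s = 1 ∨ s = -1) ∧ eps (tr g (S i)) = s • eps (S (f i)) := by
    intro i
    rcases hf i with h | h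
    · exact ⟨1, Or.inl rfl, by rw [h, one_smul]⟩
    · exact ⟨-1, Or.inr rfl, by rw [h, eps_compl', neg_one_smul]⟩
  choose s hs hs' using h2
  have hinj : Function.Injective f := by
    intro i k hik
    by_contra hne
    have h3 : tr g (S i) = tr g (S k) ∨ tr g (S i) = (tr g (S k))ᶜ := by
      rcases hf i with h | h <;> rcases hf k with h' | h' <;> rw [h, h', hik]
      · exact Or.inl rfl
      · rw [compl_compl]
        exact Or.inr rfl
      · exact Or.inr rfl
      · exact Or.inl rfl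
    rcases h3 with h3 | h3
    · exact hne (hS.inj (tr_injective g h3))
    · rw [← tr_compl] at h3
      exact hS.nc i k (tr_injective g h3)
  have hbij : Function.Bijective f := Finite.injective_iff_bijective.1 hinj
  let e := Equiv.ofBijective f hbij
  refine ⟨fun k => s (e.symm k), fun k => hs _, ?_⟩
  have h4 : ∀ i, Comb.rtr g (eps (S i)) = s i • eps (S (f i)) := fun i => by
    rw [rtr_eps]
    exact hs' i
  rw [Finset.sum_congr rfl (fun i _ => h4 i)]
  refine Fintype.sum_equiv e _ _ fun i => ?_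
  show s i • eps (S (f i)) = s (e.symm (e i)) • eps (S (f i))
  rw [Equiv.symm_apply_apply]

/-- The function `χ` is a character up to the sign. -/
theorem tri_char {c : G} (hc : ∀ g, c * g = g * c) {Q : Set (Set G)} (hQ : IsOrbit c Q)
    {S : Fin 3 → Set G} (hS : Rep Q 3 S) {χ : G → ℚ} {D : G → Fin 3}
    (hT : TriT χ D (fun i => eps (S i)))
    (hsum : ∀ σ, χ σ = eps (S 0) σ + eps (S 1) σ + eps (S 2) σ) (g : G) :
    Comb.rtr g χ = χ ∨ Comb.rtr g χ = -χ := by
  obtain ⟨r, hr, hr'⟩ := hS.rtr hQ g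
  have h1 : ∀ σ, Comb.rtr g χ σ = r 0 * eps (S 0) σ + r 1 * eps (S 1) σ + r 2 * eps (S 2) σ := by
    intro σ
    have h2 := congrFun hr' σ
    rw [Fin.sum_univ_three, Fin.sum_univ_three] at h2
    rw [rtr_apply, hsum]
    exact h2
  obtain ⟨σ0, h0⟩ := hT.surj 0
  obtain ⟨σ1, h1'⟩ := hT.surj 1
  obtain ⟨σ2, h2⟩ := hT.surj 2
  have d01 : ¬ (0 : Fin 3) = 1 := by decide
  have d02 : ¬ (0 : Fin 3) = 2 := by decide
  have d10 : ¬ (1 : Fin 3) = 0 := by decide
  have d12 : ¬ (1 : Fin 3) = 2 := by decide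
  have d20 : ¬ (2 : Fin 3) = 0 := by decide
  have d21 : ¬ (2 : Fin 3) = 1 := by decide
  have e : ∀ i σ, eps (S i) σ = if D σ = i then -χ σ else χ σ := hT.eq
  have v := hT.val
  -- the values at the three points
  have k0 := h1 σ0
  rw [e, e, e, h0, if_pos rfl, if_neg d01, if_neg d02] at k0
  have k1 := h1 σ1
  rw [e, e, e, h1', if_neg d10, if_pos rfl, if_neg d12] at k1
  have k2 := h1 σ2
  rw [e, e, e, h2, if_neg d20, if_neg d21, if_pos rfl] at k2
  have w0 : Comb.rtr g χ σ0 = 1 ∨ Comb.rtr g χ σ0 = -1 := v (σ0 * g)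
  have w1 : Comb.rtr g χ σ1 = 1 ∨ Comb.rtr g χ σ1 = -1 := v (σ1 * g)
  have w2 : Comb.rtr g χ σ2 = 1 ∨ Comb.rtr g χ σ2 = -1 := v (σ2 * g)
  rw [k0] at w0
  rw [k1] at w1
  rw [k2] at w2
  have sg : ∀ x y : ℚ, (x = 1 ∨ x = -1) → (x * y = 1 ∨ x * y = -1) → (y = 1 ∨ y = -1) := by
    intro x y hx hxy
    rcases hx with rfl | rfl
    · rwa [one_mul] at hxy
    · rcases hxy with h | h
      · right
        linarith
      · left
        linarith
  have u0 : -r 0 + r 1 + r 2 = 1 ∨ -r 0 + r 1 + r 2 = -1 := sg (χ σ0) _ (v σ0) (by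
    rw [show χ σ0 * (-r 0 + r 1 + r 2) = r 0 * -χ σ0 + r 1 * χ σ0 + r 2 * χ σ0 by ring]
    exact w0)
  have u1 : r 0 - r 1 + r 2 = 1 ∨ r 0 - r 1 + r 2 = -1 := sg (χ σ1) _ (v σ1) (by
    rw [show χ σ1 * (r 0 - r 1 + r 2) = r 0 * χ σ1 + r 1 * -χ σ1 + r 2 * χ σ1 by ring]
    exact w1)
  have u2 : r 0 + r 1 - r 2 = 1 ∨ r 0 + r 1 - r 2 = -1 := sg (χ σ2) _ (v σ2) (by
    rw [show χ σ2 * (r 0 + r 1 - r 2) = r 0 * χ σ2 + r 1 * χ σ2 + r 2 * -χ σ2 by ring]
    exact w2)
  have hall : r 0 = r 1 ∧ r 1 = r 2 := by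
    rcases hr 0 with r0 | r0 <;> rcases hr 1 with r1 | r1 <;> rcases hr 2 with r2 | r2
    · exact ⟨r0.trans r1.symm, r1.trans r2.symm⟩
    · exfalso
      rcases u2 with h | h <;> linarith
    · exfalso
      rcases u1 with h | h <;> linarith
    · exfalso
      rcases u0 with h | h <;> linarith
    · exfalso
      rcases u0 with h | h <;> linarith
    · exfalso
      rcases u1 with h | h <;> linarith
    · exfalso
      rcases u2 with h | h <;> linarith
    · exact ⟨r0.trans r1.symm, r1.trans r2.symm⟩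
  obtain ⟨ha, hb⟩ := hall
  have h3 : ∀ σ, Comb.rtr g χ σ = r 0 * χ σ := by
    intro σ
    rw [h1, hsum, ← hb, ← ha]
    ring
  rcases hr 0 with h | h
  · left
    funext σ
    rw [h3, h, one_mul]
  · right
    funext σ
    rw [h3, h, Pi.neg_apply]
    ring

/-- the structure in the third case, with a character -/
theorem tri_chi {c : G} (hc : ∀ g, c * g = g * c) {Q : Set (Set G)} (hQ : IsOrbit c Q)
    {S : Fin 3 → Set G} (hS : Rep Q 3 S)
    (hne : ∀ σ, ¬ (eps (S 0) σ = 1 ∧ eps (S 1) σ = 1 ∧ eps (S 2) σ = 1)) :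
    ∃ (N : Subgroup G) (D : G → Fin 3) (T : Fin 3 → Set G), Imag c N ∧ Rep Q 3 T ∧
      TriT (chi N) D (fun i => eps (T i)) ∧
      ∀ σ, chi N σ = eps (T 0) σ + eps (T 1) σ + eps (T 2) σ := by
  obtain ⟨χ, D, hT, hsum⟩ := tri hc hQ hS hne
  have hg := tri_char hc hQ hS hT hsum
  have hodd : ∀ σ, χ (c * σ) = -χ σ := by
    intro σ
    rw [hsum, hsum, eps_odd (hQ.half _ (hS.mem 0)), eps_odd (hQ.half _ (hS.mem 1)),
      eps_odd (hQ.half _ (hS.mem 2))]
    ring
  let N : Subgroup G :=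
    { carrier := {g | Comb.rtr g χ = χ}
      one_mem' := rtr_one χ
      mul_mem' := fun {g h} hg hh => by
        have h1 : Comb.rtr g χ = χ := hg
        have h2 : Comb.rtr h χ = χ := hh
        show Comb.rtr (g * h) χ = χ
        rw [← rtr_rtr, h2, h1]
      inv_mem' := fun {g} hg => by
        have h1 : Comb.rtr g χ = χ := hg
        show Comb.rtr g⁻¹ χ = χ
        nth_rewrite 1 [← h1]
        rw [rtr_rtr, inv_mul_cancel, rtr_one] }
  have hmem : ∀ g, g ∈ N ↔ Comb.rtr g χ = χ := fun g => Iff.rfl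
  have hN : Imag c N := by
    have h1 : Comb.rtr c χ = -χ := by
      funext σ
      rw [rtr_apply, ← hc σ, hodd, Pi.neg_apply]
    constructor
    · intro h
      rw [hmem, h1] at h
      have h2 := congrFun h 1
      rw [Pi.neg_apply] at h2
      rcases hT.val 1 with h3 | h3 <;> rw [h3] at h2 <;> norm_num at h2
    · intro τ hτ
      have h2 : Comb.rtr τ χ = -χ := (hg τ).resolve_left hτ
      rw [hmem, ← rtr_rtr, h2, map_neg, h1, neg_neg]
  have hχ := eq_smul_eps hN (U := χ) (fun τ hτ => hτ) hodd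
  have hu : χ 1 = 1 ∨ χ 1 = -1 := hT.val 1
  have huu : χ 1 * χ 1 = 1 := by
    rcases hu with h | h <;> rw [h] <;> norm_num
  have hχ' : ∀ σ, chi N σ = χ 1 * χ σ := by
    intro σ
    have h1 := congrFun hχ σ
    rw [Pi.smul_apply, smul_eq_mul] at h1
    rw [h1, ← mul_assoc, huu, one_mul]
  obtain ⟨T, hTr, hTe⟩ := hS.sgn hQ (fun _ => χ 1) (fun _ => hu)
  have hTe' : ∀ i σ, eps (T i) σ = χ 1 * eps (S i) σ := by
    intro i σ
    rw [hTe i]
    rfl
  refine ⟨N, D, T, hN, hTr, ⟨fun σ => eps_cases _ σ, hT.surj, fun i σ => ?_⟩, fun σ => ?_⟩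
  · have h1 := hT.eq i σ
    have h2 : eps (S i) σ = if D σ = i then -χ σ else χ σ := h1
    show eps (T i) σ = if D σ = i then -chi N σ else chi N σ
    rw [hTe', h2, hχ']
    split_ifs
    · ring
    · rfl
  · rw [hχ', hTe', hTe', hTe', hsum σ]
    ring

/-- the scalar products are equal -/
theorem tri_dot {c : G} (hc : ∀ g, c * g = g * c) {Q : Set (Set G)} (hQ : IsOrbit c Q)
    {N : Subgroup G} {D : G → Fin 3} {T : Fin 3 → Set G} (hN : Imag c N) (hR : Rep Q 3 T)
    (hT : TriT (chi N) D (fun i => eps (T i)))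
    (hsum : ∀ σ, chi N σ = eps (T 0) σ + eps (T 1) σ + eps (T 2) σ) (i : Fin 3) :
    dot (eps (T i)) (chi N) = (Fintype.card G : ℚ) / 3 := by
  have hs : dot (eps (T 0)) (chi N) + dot (eps (T 1)) (chi N) + dot (eps (T 2)) (chi N) =
      Fintype.card G := by
    rw [← dot_chi_self N, ← dot_add, ← dot_add]
    congr 1
    funext σ
    exact (hsum σ).symm
  have hlt : ∀ i, dot (eps (T i)) (chi N) < Fintype.card G := by
    intro i
    obtain ⟨σ0, h0⟩ := hT.surj i
    have h1 : (Fintype.card G : ℚ) = ∑ σ : G, (1 : ℚ) := by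
      rw [Finset.sum_const, Finset.card_univ, nsmul_eq_mul, mul_one]
    rw [h1]
    unfold dot
    refine Finset.sum_lt_sum (fun σ _ => ?_) ⟨σ0, Finset.mem_univ _, ?_⟩
    · rcases eps_cases (T i) σ with h | h <;> rcases hT.val σ with h' | h' <;> rw [h, h'] <;>
        norm_num
    · have h2 : eps (T i) σ0 = if D σ0 = i then -chi N σ0 else chi N σ0 := hT.eq i σ0
      rw [h2, if_pos h0]
      rcases hT.val σ0 with h' | h' <;> rw [h'] <;> norm_num
  have hpm : ∀ i k, dot (eps (T i)) (chi N) = dot (eps (T k)) (chi N) ∨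
      dot (eps (T i)) (chi N) = -dot (eps (T k)) (chi N) := by
    intro i k
    obtain ⟨g, hg⟩ := hQ.trans _ (hR.mem i) _ (hR.mem k)
    have h1 := dot_rtr g (eps (T i)) (chi N)
    rw [rtr_eps, hg, rtr_chi hc hN, dot_comm, dot_smul, dot_comm] at h1
    rcases hT.val g with h2 | h2
    · left
      rw [← h1, h2, one_mul]
    · right
      rw [← h1, h2]
      ring
  have h0 := hlt 0
  have h1 := hlt 1
  have h2 := hlt 2
  have e01 : dot (eps (T 0)) (chi N) = dot (eps (T 1)) (chi N) := by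
    rcases hpm 0 1 with h | h
    · exact h
    · exfalso
      linarith
  have e02 : dot (eps (T 0)) (chi N) = dot (eps (T 2)) (chi N) := by
    rcases hpm 0 2 with h | h
    · exact h
    · exfalso
      linarith
  revert i
  intro i
  refine Fin.cases (by linarith) (fun i => ?_) i
  refine Fin.cases ?_ (fun i => ?_) i
  · show dot (eps (T 1)) (chi N) = _
    linarith
  · refine Fin.cases ?_ (fun i => i.elim0) i
    show dot (eps (T 2)) (chi N) = _
    linarith

theorem mem_span3 {t : Fin 3 → G → ℚ} {F : G → ℚ} (h : F ∈ Submodule.span ℚ (Set.range t)) :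
    ∃ a : Fin 3 → ℚ, ∑ i, a i • t i = F := (Submodule.mem_span_range_iff_exists_fun ℚ).1 h

/-- other characters are orthogonal -/
theorem tri_other {c : G} (hc : ∀ g, c * g = g * c) {Q : Set (Set G)} (hQ : IsOrbit c Q)
    (h2 : 2 < Q.ncard) {N : Subgroup G} {D : G → Fin 3} {T : Fin 3 → Set G} (hN : Imag c N)
    (hR : Rep Q 3 T) (hT : TriT (chi N) D (fun i => eps (T i)))
    {M : Subgroup G} (hM : Imag c M) (hne : N ≠ M) : chi M ∉ VV Q := by
  intro h
  rw [hR.VV_eq] at h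
  obtain ⟨a, ha⟩ := mem_span3 h
  have hv : ∀ σ, chi M σ = a 0 * eps (T 0) σ + a 1 * eps (T 1) σ + a 2 * eps (T 2) σ := by
    intro σ
    rw [← ha, Fin.sum_univ_three]
    rfl
  have e : ∀ i σ, eps (T i) σ = if D σ = i then -chi N σ else chi N σ := hT.eq
  obtain ⟨σ0, h0⟩ := hT.surj 0
  obtain ⟨σ1, h1⟩ := hT.surj 1
  obtain ⟨σ2, h2'⟩ := hT.surj 2
  have d01 : ¬ (0 : Fin 3) = 1 := by decide
  have d02 : ¬ (0 : Fin 3) = 2 := by decide
  have d10 : ¬ (1 : Fin 3) = 0 := by decide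
  have d12 : ¬ (1 : Fin 3) = 2 := by decide
  have d20 : ¬ (2 : Fin 3) = 0 := by decide
  have d21 : ¬ (2 : Fin 3) = 1 := by decide
  have hMv : ∀ σ, chi M σ = 1 ∨ chi M σ = -1 := fun σ => eps_cases _ σ
  have sg : ∀ x y : ℚ, (x = 1 ∨ x = -1) → (x * y = 1 ∨ x * y = -1) → (y = 1 ∨ y = -1) := by
    intro x y hx hxy
    rcases hx with rfl | rfl
    · rwa [one_mul] at hxy
    · rcases hxy with h | h
      · right
        linarith
      · left
        linarith
  have u0 : -a 0 + a 1 + a 2 = 1 ∨ -a 0 + a 1 + a 2 = -1 := sg (chi N σ0) _ (hT.val σ0) (by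
    have k0 := hv σ0
    rw [e 0, e 1, e 2, h0, if_pos rfl, if_neg d01, if_neg d02] at k0
    rw [show chi N σ0 * (-a 0 + a 1 + a 2) =
      a 0 * -chi N σ0 + a 1 * chi N σ0 + a 2 * chi N σ0 by ring, ← k0]
    exact hMv σ0)
  have u1 : a 0 - a 1 + a 2 = 1 ∨ a 0 - a 1 + a 2 = -1 := sg (chi N σ1) _ (hT.val σ1) (by
    have k0 := hv σ1
    rw [e 0, e 1, e 2, h1, if_neg d10, if_pos rfl, if_neg d12] at k0
    rw [show chi N σ1 * (a 0 - a 1 + a 2) =
      a 0 * chi N σ1 + a 1 * -chi N σ1 + a 2 * chi N σ1 by ring, ← k0]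
    exact hMv σ1)
  have u2 : a 0 + a 1 - a 2 = 1 ∨ a 0 + a 1 - a 2 = -1 := sg (chi N σ2) _ (hT.val σ2) (by
    have k0 := hv σ2
    rw [e 0, e 1, e 2, h2', if_neg d20, if_neg d21, if_pos rfl] at k0
    rw [show chi N σ2 * (a 0 + a 1 - a 2) =
      a 0 * chi N σ2 + a 1 * chi N σ2 + a 2 * -chi N σ2 by ring, ← k0]
    exact hMv σ2)
  have hpm := fun i => not_pm hc hQ h2 hM (hR.mem i)
  have hval : ∀ x y z : ℚ, a 0 = x → a 1 = y → a 2 = z → ∀ σ,
      chi M σ = x * eps (T 0) σ + y * eps (T 1) σ + z * eps (T 2) σ := by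
    intro x y z hx hy hz σ
    rw [hv, hx, hy, hz]
  have hchi : ∀ σ, chi N σ = eps (T 0) σ + eps (T 1) σ + eps (T 2) σ := by
    intro σ
    rw [e 0, e 1, e 2]
    rcases (show D σ = 0 ∨ D σ = 1 ∨ D σ = 2 by
      have hD : ∀ x : Fin 3, x = 0 ∨ x = 1 ∨ x = 2 := by decide
      exact hD _) with h | h | h <;> rw [h]
    · rw [if_pos rfl, if_neg d01, if_neg d02]
      ring
    · rw [if_neg d10, if_pos rfl, if_neg d12]
      ring
    · rw [if_neg d20, if_neg d21, if_pos rfl]
      ring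
  rcases u0 with u0 | u0 <;> rcases u1 with u1 | u1 <;> rcases u2 with u2 | u2
  · apply hne
    have h3 : chi M = chi N := by
      funext σ
      rw [hval 1 1 1 (by linarith) (by linarith) (by linarith), hchi]
      ring
    have h4 : ({σ | σ ∈ M} : Set G) = {σ | σ ∈ N} := eps_inj h3
    exact (SetLike.coe_injective h4).symm
  · apply (hpm 2).1
    funext σ
    rw [hval 0 0 1 (by linarith) (by linarith) (by linarith)]
    ring
  · apply (hpm 1).1
    funext σ
    rw [hval 0 1 0 (by linarith) (by linarith) (by linarith)]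
    ring
  · apply (hpm 0).2
    funext σ
    rw [hval (-1) 0 0 (by linarith) (by linarith) (by linarith), Pi.neg_apply]
    ring
  · apply (hpm 0).1
    funext σ
    rw [hval 1 0 0 (by linarith) (by linarith) (by linarith)]
    ring
  · apply (hpm 1).2
    funext σ
    rw [hval 0 (-1) 0 (by linarith) (by linarith) (by linarith), Pi.neg_apply]
    ring
  · apply (hpm 2).2
    funext σ
    rw [hval 0 0 (-1) (by linarith) (by linarith) (by linarith), Pi.neg_apply]
    ring
  · have h3 := hval (-1) (-1) (-1) (by linarith) (by linarith) (by linarith) 1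
    have h4 := hchi 1
    have h5 : chi M 1 = 1 := if_pos M.one_mem
    have h6 : chi N 1 = 1 := if_pos N.one_mem
    rw [h5] at h3
    rw [h6] at h4
    linarith

theorem struct (h3 : S_proj) : S_struct := by
  intro G _ _ c hc Q hQ h2
  have hV : ∀ g, ∀ F ∈ VV Q, Comb.rtr g F ∈ VV Q := fun g F hF => rtr_mem_VV hQ.stable g hF
  have hodd : ∀ S ∈ Q, ∀ σ, eps S (c * σ) = -eps S σ := fun S hS σ => eps_odd (hQ.half S hS) σ
  rcases reps hQ h2 with ⟨S, hS⟩ | ⟨S, hS⟩
  · left
    have hF : FullT 2 (fun i => eps (S i)) := by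
      refine ⟨fun i σ => eps_cases _ σ, fun p hp => ?_⟩
      have h01 : S 0 ≠ S 1 := fun h => absurd (hS.inj h) (by decide)
      obtain ⟨σ, hσ⟩ := exists_ne h01
      obtain ⟨τ, hτ⟩ := exists_eq (hS.nc 0 1)
      have key : ∀ ρ, eps (S 0) ρ = p 0 → eps (S 1) ρ = p 1 → ∃ σ, ∀ i, eps (S i) σ = p i := by
        intro ρ h0 h1
        refine ⟨ρ, fun i => ?_⟩
        refine Fin.cases h0 (fun i => ?_) i
        exact Fin.cases h1 (fun i => i.elim0) i
      have o0 := hodd (S 0) (hS.mem 0)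
      have o1 := hodd (S 1) (hS.mem 1)
      rcases hp 0 with p0 | p0 <;> rcases hp 1 with p1 | p1
      · rcases eps_cases (S 0) τ with v | v
        · exact key τ (by rw [v, p0]) (by rw [← hτ, v, p1])
        · exact key (c * τ) (by rw [o0, v, p0, neg_neg]) (by rw [o1, ← hτ, v, p1, neg_neg])
      · rcases eps_cases (S 0) σ with v | v
        · exact key σ (by rw [v, p0]) (by rw [p1]; linarith)
        · exact key (c * σ) (by rw [o0, v, p0, neg_neg]) (by rw [o1, p1]; linarith)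
      · rcases eps_cases (S 0) σ with v | v
        · exact key (c * σ) (by rw [o0, v, p0]) (by rw [o1, p1]; linarith)
        · exact key σ (by rw [v, p0]) (by rw [p1]; linarith)
      · rcases eps_cases (S 0) τ with v | v
        · exact key (c * τ) (by rw [o0, v, p0]) (by rw [o1, ← hτ, v, p1])
        · exact key τ (by rw [v, p0]) (by rw [← hτ, v, p1])
    refine ⟨fun i => eps (S i), hF, fun i => ⟨S i, hS.mem i, rfl⟩, hS.VV_eq, ?_⟩
    refine inf_perp hc hV fun N hN h => ?_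
    rw [hS.VV_eq] at h
    obtain ⟨a, ha⟩ := (Submodule.mem_span_range_iff_exists_fun ℚ).1 h
    obtain ⟨i, hi⟩ := full2 hF (fun σ => eps_cases _ σ) ha
    have h4 := not_pm hc hQ h2 hN (hS.mem i)
    rcases hi with hi | hi
    · exact h4.1 hi
    · exact h4.2 hi
  · right
    by_cases hall : ∀ p : Fin 3 → ℚ, (∀ i, p i = 1 ∨ p i = -1) → ∃ σ, ∀ i, eps (S i) σ = p i
    · left
      have hF : FullT 3 (fun i => eps (S i)) := ⟨fun i σ => eps_cases _ σ, hall⟩
      refine ⟨fun i => eps (S i), hF, fun i => ⟨S i, hS.mem i, rfl⟩, hS.VV_eq, ?_⟩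
      refine inf_perp hc hV fun N hN h => ?_
      rw [hS.VV_eq] at h
      obtain ⟨a, ha⟩ := (Submodule.mem_span_range_iff_exists_fun ℚ).1 h
      obtain ⟨i, hi⟩ := full3 hF (fun σ => eps_cases _ σ) ha
      have h4 := not_pm hc hQ h2 hN (hS.mem i)
      rcases hi with hi | hi
      · exact h4.1 hi
      · exact h4.2 hi
    · right
      push Not at hall
      obtain ⟨p, hp, hno⟩ := hall
      obtain ⟨S', hS', he⟩ := hS.sgn hQ p hp
      have hne : ∀ σ, ¬ (eps (S' 0) σ = 1 ∧ eps (S' 1) σ = 1 ∧ eps (S' 2) σ = 1) := by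
        rintro σ ⟨h0, h1, h2⟩
        obtain ⟨i, hi⟩ := hno σ
        apply hi
        have h3 : ∀ i, eps (S' i) σ = 1 := by
          intro i
          refine Fin.cases h0 (fun i => ?_) i
          refine Fin.cases h1 (fun i => ?_) i
          exact Fin.cases h2 (fun i => i.elim0) i
        have h4 := h3 i
        rw [he i, Pi.smul_apply, smul_eq_mul] at h4
        rcases hp i with h5 | h5 <;> rw [h5] at h4 ⊢ <;> linarith
      obtain ⟨N, D, T, hN, hR, hT, hsum⟩ := tri_chi hc hQ hS' hne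
      have hdot := tri_dot hc hQ hN hR hT hsum
      have hchiV : chi N ∈ VV Q := by
        have h5 : chi N = eps (T 0) + eps (T 1) + eps (T 2) := by
          funext σ
          exact hsum σ
        rw [h5]
        exact Submodule.add_mem _ (Submodule.add_mem _ (eps_mem_VV (hR.mem 0))
          (eps_mem_VV (hR.mem 1))) (eps_mem_VV (hR.mem 2))
      refine ⟨N, D, fun i => eps (T i), hN, hT, fun i => ⟨T i, hR.mem i, rfl⟩, fun i => ?_,
        fun F hF => ?_⟩
      · refine ⟨Submodule.sub_mem _ (eps_mem_VV (hR.mem i)) (Submodule.smul_mem _ _ hchiV), ?_⟩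
        intro M hM
        by_cases hNM : N = M
        · subst hNM
          rw [dot_sub, dot_smul, dot_chi_self, hdot]
          ring
        · rw [dot_sub, dot_smul, dot_chi hc hN hM hNM, mul_zero, sub_zero]
          by_contra h6
          exact tri_other hc hQ h2 hN hR hT hM hNM (chi_mem hc hM hV (eps_mem_VV (hR.mem i)) h6)
      · obtain ⟨hF1, hF2⟩ := hF
        rw [hR.VV_eq] at hF1
        obtain ⟨a, ha⟩ := mem_span3 hF1
        refine ⟨a, ha.symm, ?_⟩
        have h6 := hF2 N hN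
        rw [← ha, dot_sum] at h6
        have h7 : ∀ i, dot (a i • eps (T i)) (chi N) = a i * ((Fintype.card G : ℚ) / 3) := by
          intro i
          rw [dot_smul, hdot]
        rw [Finset.sum_congr rfl (fun i _ => h7 i), ← Finset.sum_mul] at h6
        have h8 : (Fintype.card G : ℚ) / 3 ≠ 0 :=
          div_ne_zero (Nat.cast_ne_zero.2 Fintype.card_ne_zero) (by norm_num)
        exact (mul_eq_zero.1 h6).resolve_right h8

end Pool.Agent.Q14.D3G
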